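import Pool.Agent.helper60.MW.Spec

set_option autoImplicit false

namespace Pool.Agent.MW

open MeasureTheory Set Pool.Agent.helper17.Worm

lemma BAL_norm {p z : ℂ} {a : ℝ} (ha : a ≤ 1 / 2) (hp : ‖p‖ ≤ 3) (hz : z ∈ sq p a) : ‖z‖ ≤ 4 := by
  unfold sq at hz
  rw [mem_rc] at hz
  obtain ⟨⟨h1, h2⟩, h3, h4⟩ := hz
  have h5 : ‖z - p‖ ≤ |(z - p).re| + |(z - p).im| := Complex.norm_le_abs_re_add_abs_im _
  rw [Complex.sub_re, Complex.sub_im, abs_of_nonneg (by linarith), abs_of_nonneg (by linarith)] at h5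
  have h6 : ‖z‖ ≤ ‖z - p‖ + ‖p‖ := by
    have := norm_add_le (z - p) p
    rwa [sub_add_cancel] at this
  linarith

lemma BAL_sub {p : ℂ} {a b : ℝ} {q i j : ℕ} (hb : 0 < b) (ha : a = q * b) (hi : i < q) (hj : j < q) :
    sq (sub p b i j) b ⊆ sq p a := by
  intro z hz
  unfold sq at hz ⊢
  rw [mem_rc] at hz ⊢
  have e1 : (sub p b i j).re = p.re + i * b := by
    simp [sub]
  have e2 : (sub p b i j).im = p.im + j * b := by
    simp [sub]
  rw [e1, e2] at hz
  obtain ⟨⟨h1, h2⟩, h3, h4⟩ := hz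
  have hi' : ((i : ℝ) + 1) * b ≤ q * b := by
    have : ((i : ℝ) + 1) ≤ q := by exact_mod_cast hi
    exact mul_le_mul_of_nonneg_right this hb.le
  have hj' : ((j : ℝ) + 1) * b ≤ q * b := by
    have : ((j : ℝ) + 1) ≤ q := by exact_mod_cast hj
    exact mul_le_mul_of_nonneg_right this hb.le
  have hi0 : 0 ≤ (i : ℝ) * b := by positivity
  have hj0 : 0 ≤ (j : ℝ) * b := by positivity
  rw [ha]
  refine ⟨⟨?_, ?_⟩, ?_, ?_⟩ <;> nlinarith

lemma BAL_near {g g' : ℝ × ℂ} {z : ℂ} {d : ℝ} (hd : 0 < d) (hz : ‖z‖ ≤ 4) (h1 : |g.1 - g'.1| ≤ d / 8)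
    (h2 : ‖g.2 - g'.2‖ ≤ d / 2) : ‖mv g z - mv g' z‖ ≤ d := by
  have h3 := mv_near g g' z
  have h4 : |g.1 - g'.1| * ‖z‖ ≤ d / 8 * 4 :=
    mul_le_mul h1 hz (norm_nonneg _) (by positivity)
  linarith

theorem BAL : BAL_stmt := by
  intro ι _ X hX k q B p a b s t d S g g' hd hdb hq ha ha2 hp hB hF h1 h2
  have hb : 0 < b := by linarith
  have hq1 : (1 : ℝ) ≤ q := by exact_mod_cast hq
  have hab : b ≤ a := by rw [ha]; nlinarith
  have ha0 : 0 < a := by linarith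
  refine ⟨?_, ?_⟩
  · refine hB.trans ?_
    unfold nbad
    apply Finset.card_le_card
    intro i hi
    rw [Finset.mem_filter] at hi ⊢
    refine ⟨hi.1, ?_⟩
    have h3 : occ X g' (sq (p i) a) ≤ occ X g (sq (p i) a) + 2 * d * (a + a) := by
      refine occ_near hX g' g hd.le (by linarith) (by linarith) ?_
      intro z hz
      rw [norm_sub_rev]
      exact BAL_near hd (BAL_norm ha2 (hp i) hz) h1 h2
    have h4 : (s + 4 * d / a) * a ^ 2 = s * a ^ 2 + 2 * d * (a + a) := by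
      field_simp
      ring
    rw [h4]
    linarith [hi.2]
  · intro e
    have h3 : occ X g (sq (sub (p e.1) b (S e).1 (S e).2) b) ≤
        occ X g' (sq (sub (p e.1) b (S e).1 (S e).2) b) + 2 * d * (b + b) := by
      refine occ_near hX g g' hd.le hdb hdb ?_
      intro z hz
      exact BAL_near hd (BAL_norm ha2 (hp e.1) (BAL_sub hb ha (S e).1.2 (S e).2.2 hz)) h1 h2
    have h4 : (t + 4 * d / b) * b ^ 2 = t * b ^ 2 + 2 * d * (b + b) := by
      field_simp
      ring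
    have h5 := hF e
    rw [h4] at h5
    linarith

end Pool.Agent.MW
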